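import Mathlib
import Pool.Agent.H.MP_52e257_al.Main
import Pool.Agent.H.MP_52e257_al.Defs

set_option autoImplicit false

namespace Pool.Agent.Results.MP_52e257_al.Q1

open Pool.Agent.H.MP_52e257_al

theorem result : ∃ (F : Type) (_ : Field F) (A : Type) (_ : AddCommGroup A) (_ : Module F A)
    (m : A →ₗ[F] A →ₗ[F] A),
    ¬ Module.Finite F A ∧ IsSimpleAlg m ∧ IsNCJordan m ∧ CommIdentity m ∧
      ¬ IsAlternative m ∧ ¬ IsJordanAlg m :=
  ⟨ℚ, inferInstance, Fin 7 → ℝ, inferInstance, inferInstance, m, not_fin,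
    ⟨by_contra fun h => not_comm fun x y => by
      push Not at h
      rw [h, h], simple⟩,
    ⟨fun x y => sub_eq_zero.2 (flex x y), fun x y => sub_eq_zero.2 (jordan x y)⟩,
    fun x y => sub_eq_zero.2 (ident x y),
    fun h => not_alt fun x y => ⟨sub_eq_zero.1 (h x y).1, sub_eq_zero.1 (h x y).2⟩,
    fun h => not_comm h.1⟩

end Pool.Agent.Results.MP_52e257_al.Q1
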